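import Pool.Agent.W_448fc_h67.FcQ
import Pool.Agent.W_448dd_h67.DdI

/-!
The elements (C) at a lower window: the component (MP_448cb3_co, input HCC at `m = 7`;
after `FcK` .. `FcN` of helper67, which treat the window `m`).
-/

namespace Pool.Agent.GaussPoset

set_option linter.unusedSectionVars false

open Polynomial Finset Dd

universe u

variable {P : Type u} [Fintype P] [PartialOrder P] [DecidableEq P] {r m g u : ℕ}

namespace CEl

variable {t0 : Tops P} {Nc : Finset P} {co : P → ℕ × ℕ} {z F S : P}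

section Comp

variable {Q : Type u} [Fintype Q] [PartialOrder Q] [DecidableEq Q] {f : Q → P}

/-- the sum over configurations with dangerous labels on a set, one component, window `i`,
label `k` with `i + k = m + u + 1` -/
theorem compI (C : CEl t0 Nc co m z F S) (H : Gr P r) (E : Emb t0 z f)
    (hm : m = 2 * g + u) (hu : u ≤ 1) (hg : 1 ≤ g) (hgu : g = 1 → u = 0) {i k : ℕ}
    (hik : i + k = m + u + 1) (hk : u + 1 ≤ k) (Sd : Finset Q)
    {z' : Q} (hz' : f z' = z) (hzS : z' ∈ Sd) :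
    (∀ n < (u + 1) ^ 2 + ∑ x ∈ upz z f, min k (lev x - i), (1 + X : ℤ[X]) ^ (g + 1) ∣
      SC (fun (e : Q → ℕ) F => Vd i e F ∧ Sd ⊆ upL i k e F) n) ∧
    ((∃ x ∈ Sd, ¬ z' ≤ x) → (1 + X : ℤ[X]) ^ (g + 1) ∣
      SC (fun (e : Q → ℕ) F => Vd i e F ∧ Sd ⊆ upL i k e F)
      ((u + 1) ^ 2 + ∑ x ∈ upz z f, min k (lev x - i))) ∧
    ((∀ x ∈ Sd, z' ≤ x) → (1 + X : ℤ[X]) ^ (g + 1) ∣
      SC (fun (e : Q → ℕ) F => Vd i e F ∧ Sd ⊆ upL i k e F)
      ((u + 1) ^ 2 + ∑ x ∈ upz z f, min k (lev x - i)) -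
      Z {x // x ∈ upz z f} (m + u + 1) ((u + 1) ^ 2)) := by
  classical
  have hgr := H.gradedBelow
  have hmem : ∀ x : Q, x ∈ upz z f ↔ z' ≤ x := by
    intro x
    rw [mem_upz, ← hz', ← E.le_iff]
  have key := SC_core (Q := Q) (i := i) (k := k) (B := (u + 1) ^ 2) (b := g + 1)
    (U := upz z f) (by omega) E.upz_up (fun L => Sd ⊆ L) ?_ ?_ ?_ ?_
  · rw [hik] at key
    refine ⟨key.1, ?_, ?_⟩
    · rintro ⟨x, hx, hzx⟩
      exact key.2.1 fun h => hzx ((hmem x).mp (h hx))
    · intro h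
      exact key.2.2 fun x hx => (hmem x).mpr (h x hx)
  · intro L hL hS x hx
    exact hL z' x ((hmem x).mp hx) (hS hzS)
  · intro x hx
    have h1 := C.out (by omega) (E.le_t x) (fun h => hx (mem_upz.mpr h))
    rw [E.lev]
    omega
  · intro _ n hn
    rw [hik]
    exact C.core_lt hgr E hm hu hg hgu hn
  · intro L hL hUL hne n hn
    rw [hik]
    refine C.cls H E hm hu hg hgu hL hUL hne (le_trans (Nat.add_le_add_left ?_ n) hn)
    exact Nat.mul_le_mul_right _ hk

lemma sum_upzI (E : Emb t0 z f) (i k : ℕ) : ∑ x ∈ upz z f, min k (lev x - i) =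
    cst i (fun _ => k) z := by
  classical
  unfold cst ez
  rw [← Finset.sum_filter]
  refine Finset.sum_bij (fun x _ => f x) ?_ ?_ ?_ ?_
  · intro x hx
    rw [mem_filter]
    exact ⟨mem_univ _, mem_upz.mp hx⟩
  · intro x _ y _ h
    exact E.inj h
  · intro y hy
    rw [mem_filter] at hy
    obtain ⟨z', hz'⟩ := E.z
    obtain ⟨y', rfl⟩ := E.up z' y (by rw [hz']; exact hy.2)
    exact ⟨y', mem_upz.mpr hy.2, rfl⟩
  · intro x _
    rw [E.lev]

end Comp

variable {N : Tops P → Finset P}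

/-- dangerous `z` together with an unnatural element of another component, window `i` -/
lemma costI (C : CEl t0 Nc co m z F S) (hgr : GradedBelow P) (HN : NatSys N)
    (hlow : ∀ x ∈ unnat N, 2 * m < lev x) {i h : ℕ} (him : i ≤ m) {e : P → ℕ} {F' : Finset P}
    (hV : Vd i e F') (hzd : z ∈ F' ∨ h ≤ e z) {x0 : P} (hx0 : x0 ∈ offN N t0)
    (hd : x0 ∈ F' ∨ 1 ≤ e x0) : cst i (fun _ => h) z + (m + 1) ≤ ∑ x, e x := by
  classical
  have hzo := C.z_only hgr HN hlow
  have hl0 := hlow x0 (offN_sub HN hx0)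
  rw [mem_offN] at hx0
  obtain ⟨t, ht, hxt, -⟩ := hx0
  have hzl := C.lev_z hgr
  have h1 : ∀ k ∈ range (m + 1), ∃ w, x0 ≤ w ∧ w ≤ (t : P) ∧ lev w = m + 1 + k := by
    intro k hk
    rw [mem_range] at hk
    exact exists_between hgr hxt (by rw [t.2]; omega) (by omega)
  haveI : Nonempty P := ⟨x0⟩
  choose! f hf using h1
  have hinj : Set.InjOn f (range (m + 1)) := by
    intro k hk k' hk' h
    have e1 := hf k (Finset.mem_coe.mp hk)
    have e2 := hf k' (Finset.mem_coe.mp hk')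
    rw [h] at e1
    omega
  have hcard : ((range (m + 1)).image f).card = m + 1 := by
    rw [card_image_of_injOn hinj, card_range]
  have h2 : ∑ x : P, (if x ∈ (range (m + 1)).image f then 1 else 0) = m + 1 := by
    rw [← card_filter]
    rw [filter_mem_eq_inter, univ_inter, hcard]
  unfold cst
  rw [← h2, ← Finset.sum_add_distrib]
  refine Finset.sum_le_sum fun y _ => ?_
  have h3 := ez_le (h := fun _ => h) hV (by omega) hzd y
  have h4 := ez_le (h := fun _ => 1) hV (by omega) hd y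
  by_cases hy : y ∈ (range (m + 1)).image f
  · rw [if_pos hy]
    rw [mem_image] at hy
    obtain ⟨k, hk, rfl⟩ := hy
    obtain ⟨h5, h6, h7⟩ := hf k hk
    have h8 : ¬ z ≤ f k := by
      intro h9
      exact ht (Subtype.ext (mem_onlyB.mp hzo t t.2 (h9.trans h6)))
    unfold ez at h4 ⊢
    rw [if_neg h8]
    rw [if_pos h5, h7] at h4
    have h9 : min 1 (m + 1 + k - i) ≤ e (f k) := h4
    omega
  · rw [if_neg hy, add_zero]
    exact h3

end CEl

/-- the other components, truncated orders -/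
theorem dvd_restT {i n0 : ℕ} {N : Tops P → Finset P} {t0 : Tops P} (HN : NatSys N)
    {b : Tops P → ℕ} (HZ : ∀ t, ∀ n < n0, (1 + X : ℤ[X]) ^ b t ∣ Z {x : P // x ∈ N t} i n)
    {n : ℕ} (hn : n < n0) : (1 + X : ℤ[X]) ^ (∑ t ∈ univ.erase t0, b t) ∣
      Z {x : {x : P // x ∉ offN N t0} // ¬ (x : P) ∈ onlyB t0} i n := by
  classical
  have hmemN : ∀ x : {x : {x : P // x ∉ offN N t0} // ¬ (x : P) ∈ onlyB t0},
      (x : P) ∈ N (topOf (x : P)) := by
    intro x
    refine mem_of_not_offN x.1.2 ?_ (le_topOf _)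
    intro h
    refine x.2 (onlyB_of_not_offN HN x.1.2 ?_)
    have h1 := le_topOf (x : P)
    rw [h] at h1
    exact h1
  have hs : ∑ t ∈ univ.erase t0, b t = ∑ t, (if t = t0 then 0 else b t) := by
    rw [← Finset.add_sum_erase univ _ (mem_univ t0), if_pos rfl, zero_add]
    exact Finset.sum_congr rfl fun t ht => by rw [if_neg (ne_of_mem_erase ht)]
  rw [hs]
  have hc : ∀ x y : {x : {x : P // x ∉ offN N t0} // ¬ (x : P) ∈ onlyB t0}, x ≤ y →
      topOf (x : P) = topOf (y : P) := fun x y hxy =>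
    HN.cp x y hxy fun h => mem_unnat.mp h _ (hmemN x)
  choose f hf hf' using fun k => exists_norm
    {x : {x : {x : P // x ∉ offN N t0} // ¬ (x : P) ∈ onlyB t0} // topOf (x : P) = k} i
  rw [Z_prod (fun x : {x : {x : P // x ∉ offN N t0} // ¬ (x : P) ∈ onlyB t0} =>
    topOf (x : P)) hc i f hf n]
  refine Lo.prod (n0 := n0) univ (fun k _ n' hn' => ?_) n hn
  rw [hf']
  by_cases hk : k = t0
  · rw [if_pos hk, pow_zero]
    exact one_dvd _
  · rw [if_neg hk]
    have e : {x : {x : {x : P // x ∉ offN N t0} // ¬ (x : P) ∈ onlyB t0} // topOf (x : P) = k} ≃o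
        {x : P // x ∈ N k} :=
      { toFun := fun x => ⟨x.1.1.1, by
          have := hmemN x.1
          rw [x.2] at this
          exact this⟩
        invFun := fun x => ⟨⟨⟨x.1, fun h => by
            have h2 := offN_sub HN h
            exact mem_unnat.mp h2 k x.2⟩, fun h => by
            exact hk (Subtype.ext (mem_onlyB.mp h k k.2 (HN.le_t k _ x.2)))⟩, HN.topOf_eq x.2⟩
        left_inv := fun x => rfl
        right_inv := fun x => rfl
        map_rel_iff' := Iff.rfl }
    rw [Z_iso e]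
    exact HZ k n' hn'

end Pool.Agent.GaussPoset
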