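import Pool.Agent.W_448cc6_h94.CyA

/-!
The elements (C) at `m = 7`, window 6, label 3: the first pole at the energy 75
(MP_448cb3_co, input HCC at `m = 7`; after `FcN`, `FcP` of helper67).
-/

namespace Pool.Agent.GaussPoset.Cy

set_option linter.unusedSectionVars false

open Polynomial Finset

universe u

variable {P : Type u} [Fintype P] [PartialOrder P] [DecidableEq P] {r : ℕ}
variable {t0 : Tops P} {Nc : Finset P} {co : P → ℕ × ℕ} {z F S : P}
  {N : Tops P → Finset P}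

/-- **The pole**, a set of dangerous elements. -/
theorem pole (C : CEl t0 Nc co 7 z F S) (H : Gr P r) (HN : NatSys N) {b : Tops P → ℕ} {n0 : ℕ}
    (HZ : ∀ t, ∀ n < n0, (1 + X : ℤ[X]) ^ b t ∣ Z {x : P // x ∈ N t} 6 n)
    (hlow : ∀ x ∈ unnat N, 2 * 7 < lev x) {Sd : Finset P} (hzS : z ∈ Sd)
    (hSd : ∀ x ∈ Sd, x ∈ onlyB t0) (hn0 : 4 + cst 6 (fun _ => 3) z < n0) :
    (∀ n < 4 + cst 6 (fun _ => 3) z,
      (1 + X : ℤ[X]) ^ (4 + ∑ t ∈ univ.erase t0, b t) ∣ ZB 6 ∅ 0 (sgs Sd 3) n) ∧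
    ((∃ x ∈ Sd, ¬ z ≤ x) → (1 + X : ℤ[X]) ^ (4 + ∑ t ∈ univ.erase t0, b t) ∣
      ZB 6 ∅ 0 (sgs Sd 3) (4 + cst 6 (fun _ => 3) z)) ∧
    ((∀ x ∈ Sd, z ≤ x) → (1 + X : ℤ[X]) ^ (4 + ∑ t ∈ univ.erase t0, b t) ∣
      ZB 6 ∅ 0 (sgs Sd 3) (4 + cst 6 (fun _ => 3) z) -
      X ^ (below P 6 + 10) * (1 + X) ^ ((lv P 6).card - 1)) := by
  classical
  have hgr := H.gradedBelow
  have E := C.emb hgr HN hlow
  have hzo := C.z_only hgr HN hlow
  have hzl := C.lev_z hgr
  set E0 := cst 6 (fun _ => 3) z with hE0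
  have hred : ∀ n ≤ 4 + E0, ZB 6 ∅ 0 (sgs Sd 3) n = ∑ ab ∈ antidiagonal n,
      SC (fun (e : {x : {x : P // x ∉ offN N t0} // (x : P) ∈ onlyB t0} → ℕ) F => Vd 6 e F ∧
        (univ.filter (fun x : {x : {x : P // x ∉ offN N t0} // (x : P) ∈ onlyB t0} =>
          (x : P) ∈ Sd)) ⊆ upL 6 3 e F) ab.1 *
      Z {x : {x : P // x ∉ offN N t0} // ¬ (x : P) ∈ onlyB t0} 6 ab.2 := by
    intro n hn
    refine ZB_reduce HN (fun x hx => by have := hlow x hx; omega) hSd ?_
    intro e F' hV hS hs x hx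
    have hz1 : z ∈ F' ∨ 3 ≤ e z := by
      rcases mem_upL.mp (hS hzS) with h | h
      · exact Or.inl h
      · right
        rw [rho_of_lt (by omega)] at h
        exact_mod_cast h
    by_contra hcon
    have hd : x ∈ F' ∨ 1 ≤ e x := by
      by_contra h
      push Not at h
      exact hcon ⟨h.1, by omega⟩
    have := C.costI hgr HN hlow (i := 6) (by norm_num) hV hz1 hx hd
    omega
  set Sd0 := univ.filter (fun x : {x : {x : P // x ∉ offN N t0} // (x : P) ∈ onlyB t0} =>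
          (x : P) ∈ Sd) with hSd0
  have hmS : ∀ x, x ∈ Sd0 ↔ (x : P) ∈ Sd := by
    intro x
    rw [hSd0, mem_filter]
    simp only [mem_univ, true_and]
  have key := C.compI H E (g := 3) (u := 1) (i := 6) (k := 3) (by norm_num) le_rfl (by norm_num)
    (by norm_num) (by norm_num) (by norm_num) Sd0 (z' := ⟨⟨z, not_offN_of_onlyB hzo⟩, hzo⟩) rfl
    ((hmS _).mpr hzS)
  rw [CEl.sum_upzI E, ← hE0] at key
  norm_num at key
  obtain ⟨k1, k2, k3⟩ := key
  have hrest := fun (n : ℕ) (hn : n < n0) => dvd_restT (t0 := t0) HN HZ hn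
  have hp1 : ∀ n < 4 + E0, (1 + X : ℤ[X]) ^ (4 + ∑ t ∈ univ.erase t0, b t) ∣
      ZB 6 ∅ 0 (sgs Sd 3) n := by
    intro n hn
    rw [hred n hn.le]
    refine Finset.dvd_sum fun ab hab => ?_
    rw [HasAntidiagonal.mem_antidiagonal] at hab
    rw [pow_add _ 4]
    exact mul_dvd_mul (k1 ab.1 (by omega)) (hrest _ (by omega))
  refine ⟨hp1, ?_, ?_⟩
  · rintro ⟨x, hx, hzx⟩
    rw [hred _ le_rfl]
    refine Finset.dvd_sum fun ab hab => ?_
    rw [HasAntidiagonal.mem_antidiagonal] at hab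
    rw [pow_add _ 4]
    refine mul_dvd_mul ?_ (hrest _ (by omega))
    rcases Nat.lt_or_ge ab.1 (4 + E0) with h | h
    · exact k1 ab.1 h
    · have h1 : ab.1 = 4 + E0 := by omega
      rw [h1]
      exact k2 x (fun h => not_offN_of_onlyB (hSd x hx) h) (hSd x hx) ((hmS _).mpr hx) hzx
  · intro hall
    have k3' := k3 (fun x hx hx' hxS => hall _ ((hmS _).mp hxS))
    rw [hred _ le_rfl]
    have hmem : ((4 + E0, 0) : ℕ × ℕ) ∈ antidiagonal (4 + E0) := by
      rw [HasAntidiagonal.mem_antidiagonal]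
      exact Nat.add_zero _
    rw [← Finset.add_sum_erase _ _ hmem]
    obtain ⟨a, ha, hcore⟩ := C.core_eq hgr E (g := 3) (u := 1) (by norm_num) le_rfl (by norm_num)
      (by norm_num)
    have hT := C.triS_tz E
    have e1 : below {x // x ∈ CEl.tz z (fun x : {x : {x : P // x ∉ offN N t0} //
        (x : P) ∈ onlyB t0} => (x : P))} 9 = below {x // x ∈ CEl.tz z (fun x :
        {x : {x : P // x ∉ offN N t0} // (x : P) ∈ onlyB t0} => (x : P))} 6 + 13 := by
      rw [show (9 : ℕ) = 8 + 1 by norm_num, below_succ, show (8 : ℕ) = 7 + 1 by norm_num,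
        below_succ, show (7 : ℕ) = 6 + 1 by norm_num, below_succ,
        hT.card_lv_low (by norm_num) (by norm_num), hT.card_lv_low (by norm_num) (by norm_num),
        hT.card_lv_low (by norm_num) (by norm_num)]
    have e2 := hT.card_lv_low (l := 6) (by omega) (by omega)
    have e3 : below P 6 = below {x // x ∈ CEl.tz z (fun x : {x : {x : P // x ∉ offN N t0} //
        (x : P) ∈ onlyB t0} => (x : P))} 6 +
        below {x : {x : P // x ∉ offN N t0} // ¬ (x : P) ∈ onlyB t0} 6 :=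
      C.card_split hgr HN (by omega) hlow (fun l => l < 6) (by omega)
    have e4 : (lv P 6).card = (lv {x // x ∈ CEl.tz z (fun x : {x : {x : P // x ∉ offN N t0} //
        (x : P) ∈ onlyB t0} => (x : P))} 6).card +
        (lv {x : {x : P // x ∉ offN N t0} // ¬ (x : P) ∈ onlyB t0} 6).card :=
      C.card_split hgr HN (by omega) hlow (fun l => l = 6) (by omega)
    have h0 := hrest 0 (by omega)
    rw [Z_zero] at h0
    simp only
    rw [Z_zero]
    norm_num at ha hcore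
    have e5 : below P 6 + 10 = a +
        below {x : {x : P // x ∉ offN N t0} // ¬ (x : P) ∈ onlyB t0} 6 := by omega
    have e6 : (lv P 6).card - 1 = 3 +
        (lv {x : {x : P // x ∉ offN N t0} // ¬ (x : P) ∈ onlyB t0} 6).card := by omega
    rw [e5, e6]
    have h1 := dvd_add k3' hcore
    have h2 := mul_dvd_mul h1 h0
    rw [← pow_add] at h2
    have h3 : (1 + X : ℤ[X]) ^ (4 + ∑ t ∈ univ.erase t0, b t) ∣
        ∑ ab ∈ (antidiagonal (4 + E0)).erase (4 + E0, 0),
        SC (fun (e : {x : {x : P // x ∉ offN N t0} // (x : P) ∈ onlyB t0} → ℕ) F => Vd 6 e F ∧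
          Sd0 ⊆ upL 6 3 e F) ab.1 *
        Z {x : {x : P // x ∉ offN N t0} // ¬ (x : P) ∈ onlyB t0} 6 ab.2 := by
      refine Finset.dvd_sum fun ab hab => ?_
      rw [mem_erase, HasAntidiagonal.mem_antidiagonal] at hab
      rw [pow_add _ 4]
      refine mul_dvd_mul (k1 ab.1 ?_) (hrest _ (by omega))
      by_contra hcon
      apply hab.1
      exact Prod.ext (by simp only; omega) (by simp only; omega)
    have h4 := dvd_add h2 h3
    refine h4.trans (dvd_of_eq ?_)
    rw [pow_add X a, pow_add (1 + X) 3]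
    ring

end Pool.Agent.GaussPoset.Cy
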