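import Pool.Agent.W_448cc6_h94.CyB
import Pool.Agent.W_448s8f_h76.FiF

/-!
The elements (C) at `m = 7`, window 6, label 3: families and the standalone kill
(MP_448cb3_co, input HCC at `m = 7`; after `FcP`, `FcQ` of helper67).
-/

namespace Pool.Agent.GaussPoset.Cy

set_option linter.unusedSectionVars false

open Polynomial Finset

universe u

variable {P : Type u} [Fintype P] [PartialOrder P] [DecidableEq P] {r : ℕ}
variable {t0 : Tops P} {Nc : Finset P} {co : P → ℕ × ℕ} {z F S : P}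
  {N : Tops P → Finset P}

/-- the cost with the label 3 -/
lemma cst_eq (C : CEl t0 Nc co 7 z F S) (hgr : GradedBelow P) :
    cst 6 (fun _ => 3) z = 71 := by
  have hz := C.lev_z hgr
  obtain ⟨h1, h2⟩ := C.nab_z
  have h3 : cst 6 (fun _ => 3) z = ct 6 3 z := rfl
  rw [h3, Fi.ct_topI (m := 7) (q := fun d => nab (14 - d) z) (by norm_num) hz (by norm_num)
    (fun d _ => rfl)]
  have e1 := h2 1 (by norm_num) (by norm_num)
  have e2 := h2 2 (by norm_num) (by norm_num)
  have e3 := h2 3 (by norm_num) (by norm_num)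
  have e4 := h2 4 (by norm_num) (by norm_num)
  have e5 := h2 5 (by norm_num) (by norm_num)
  have e6 := h2 6 (by norm_num) (by norm_num)
  have e7 := h2 7 (by norm_num) (by norm_num)
  unfold nF at h1 e1 e2 e3 e4 e5 e6 e7
  norm_num at h1 e1 e2 e3 e4 e5 e6 e7
  unfold Fi.vsQ
  simp only [Finset.sum_range_succ, Finset.sum_range_zero]
  norm_num [h1, e1, e2, e3, e4, e5, e6, e7]

/-- the same for the single element `z` -/
theorem pole_single (C : CEl t0 Nc co 7 z F S) (H : Gr P r) (HN : NatSys N) {b : Tops P → ℕ}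
    {n0 : ℕ} (HZ : ∀ t, ∀ n < n0, (1 + X : ℤ[X]) ^ b t ∣ Z {x : P // x ∈ N t} 6 n)
    (hlow : ∀ x ∈ unnat N, 2 * 7 < lev x) (hb : b t0 = 4) (hn0 : 75 < n0) :
    (∀ n < 75, (1 + X : ℤ[X]) ^ (∑ t, b t) ∣ ZD 6 z 3 n) ∧
    (1 + X : ℤ[X]) ^ (∑ t, b t) ∣ ZD 6 z 3 75 -
      X ^ (below P 6 + 10) * (1 + X) ^ ((lv P 6).card - 1) := by
  have hs : ∑ t, b t = 4 + ∑ t ∈ univ.erase t0, b t := by
    rw [← hb]
    exact (Finset.add_sum_erase univ b (mem_univ t0)).symm
  have e := cst_eq C H.gradedBelow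
  have key := pole C H HN HZ hlow (Sd := {z}) (mem_singleton_self z) (by
    intro x hx
    rw [mem_singleton.mp hx]
    exact C.z_only H.gradedBelow HN hlow) (by rw [e]; exact hn0)
  rw [sgs_single, ← hs, e] at key
  exact ⟨key.1, key.2.2 fun x hx => by rw [mem_singleton.mp hx]⟩

/-- two such elements are dangerous -/
theorem pole_pair (C : CEl t0 Nc co 7 z F S) (H : Gr P r) (HN : NatSys N) {b : Tops P → ℕ}
    {n0 : ℕ} (HZ : ∀ t, ∀ n < n0, (1 + X : ℤ[X]) ^ b t ∣ Z {x : P // x ∈ N t} 6 n)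
    (hlow : ∀ x ∈ unnat N, 2 * 7 < lev x) (hb : b t0 = 4) (hn0 : 75 < n0)
    {z' : P} (hz' : ¬ z ≤ z') (hz'o : z' ∈ onlyB t0) {n : ℕ} (hn : n ≤ 75) :
    (1 + X : ℤ[X]) ^ (∑ t, b t) ∣ ZB 6 ∅ 0 (sgs {z, z'} 3) n := by
  have hs : ∑ t, b t = 4 + ∑ t ∈ univ.erase t0, b t := by
    rw [← hb]
    exact (Finset.add_sum_erase univ b (mem_univ t0)).symm
  have e := cst_eq C H.gradedBelow
  have key := pole C H HN HZ hlow (Sd := {z, z'}) (by simp) (by
    intro x hx
    rw [mem_insert, mem_singleton] at hx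
    rcases hx with rfl | rfl
    · exact C.z_only H.gradedBelow HN hlow
    · exact hz'o) (by rw [e]; exact hn0)
  rw [← hs, e] at key
  rcases Nat.lt_or_ge n 75 with h | h
  · exact key.1 n h
  · rw [show n = 4 + 71 by omega]
    exact key.2.1 ⟨z', by simp, hz'⟩

/-- the first pole of a family of (C) elements with the same covers -/
theorem fam_pole (C : CEl t0 Nc co 7 z F S) (H : Gr P r) (HN : NatSys N) {b : Tops P → ℕ}
    {n0 : ℕ} (HZ : ∀ t, ∀ n < n0, (1 + X : ℤ[X]) ^ b t ∣ Z {x : P // x ∈ N t} 6 n)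
    (hlow : ∀ x ∈ unnat N, 2 * 7 < lev x) (hb : b t0 = 4) (hn0 : 75 < n0)
    {h : P → ℕ} {A : Finset P} (hzA : z ∈ A) (hA : ∀ y ∈ A, ∀ w, z < w ↔ y < w)
    (hh' : ∀ y ∈ A, h y = 3) :
    (∀ n < 75, (1 + X : ℤ[X]) ^ (∑ t, b t) ∣ ZF 6 h A n) ∧
    (1 + X : ℤ[X]) ^ (∑ t, b t) ∣ ZF 6 h A 75 -
      ∑ _y ∈ A, X ^ (below P 6 + 10) * (1 + X) ^ ((lv P 6).card - 1) := by
  classical
  have hgr := H.gradedBelow
  have hfam : ∀ y ∈ A, CEl t0 Nc co 7 y F S ∧ lev y = 2 * 7 + 1 := by
    intro y hy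
    have hyF := (cov_of_up (hA y hy)).mp C.zF
    have hyS := (cov_of_up (hA y hy)).mp C.zS
    have C' : CEl t0 Nc co 7 y F S := ⟨C.chart, C.strip, C.F_mem, C.S_mem, C.co_F, C.co_S, hyF,
      hyS, fun w hw => C.only w ((cov_of_up (hA y hy)).mpr hw)⟩
    exact ⟨C', C'.lev_z hgr⟩
  have hsingle := fun y (hy : y ∈ A) => pole_single (hfam y hy).1 H HN HZ hlow hb hn0
  have hlz := (hfam z hzA).2
  by_cases hone : A = {z}
  · have f2 := hsingle z hzA
    constructor
    · intro n hn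
      rw [hone, ZF_singleton (by omega), hh' z hzA]
      exact f2.1 n hn
    · rw [hone, ZF_singleton (by omega), hh' z hzA, Finset.sum_singleton]
      exact f2.2
  · obtain ⟨y, hy, hyz⟩ : ∃ y ∈ A, y ≠ z := by
      by_contra hcon
      push Not at hcon
      apply hone
      ext x
      rw [mem_singleton]
      exact ⟨fun h => hcon x h, fun h => h ▸ hzA⟩
    have htwo : A = {z, y} := by
      ext x
      rw [mem_insert, mem_singleton]
      constructor
      · intro hx
        by_contra hcon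
        push Not at hcon
        exact Win.dc_three H (hfam x hx).1.zF C.zF (hfam y hy).1.zF hcon.1 hcon.2 hyz.symm
      · rintro (h | h)
        · rw [h]; exact hzA
        · rw [h]; exact hy
    have f2 := hsingle z hzA
    have g1 := hfam y hy
    have g2 := hsingle y hy
    have hzy : ¬ z ≤ y := by
      intro h
      have := lev_strictAnti (lt_of_le_of_ne h hyz.symm)
      omega
    have hP := fun n (hn : n ≤ 75) => pole_pair C H HN HZ hlow hb hn0 hzy
      (g1.1.z_only hgr HN hlow) hn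
    have key : ∀ n, ZF 6 h {z, y} n = ZD 6 z 3 n + ZD 6 y 3 n - ZB 6 ∅ 0 (sgs {z, y} 3) n := by
      intro n
      have h3 := ZF_pair (i := 6) (h := h) (z := z) (z' := y) (by omega) (by omega) n
      rw [ZP_eq_sgs (by omega) (by omega) (hh' z hzA) (hh' y hy), hh' z hzA, hh' y hy] at h3
      rw [← h3]
      ring
    constructor
    · intro n hn
      rw [htwo, key]
      exact dvd_sub (dvd_add (f2.1 n hn) (g2.1 n hn)) (hP n hn.le)
    · rw [htwo, key, Finset.sum_pair hyz.symm]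
      have h5 := dvd_sub (dvd_add f2.2 g2.2) (hP _ le_rfl)
      refine h5.trans (dvd_of_eq ?_)
      ring

/-- `z` covers exactly the fold end and the straight end of a stair of full order -/
def IsC (b : Tops P → ℕ) (z : P) : Prop :=
  ∃ t Nc co F S, CEl (P := P) t Nc co 7 z F S ∧ b t = 4

/-- **Standalone kill of the (C) elements.** -/
theorem cc_dead (H : Gr P r) (HN : NatSys N) {b : Tops P → ℕ}
    {n0 : ℕ} (HZ : ∀ t, ∀ n < n0, (1 + X : ℤ[X]) ^ b t ∣ Z {x : P // x ∈ N t} 6 n)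
    (hlow : ∀ x ∈ unnat N, 2 * 7 < lev x)
    (hsum : ∑ t, b t = (lv P 6).card) {R : Finset P} {h : P → ℕ}
    (FT : FarT P 6 R (lv P 6).card h n0) (hn0 : 75 < n0)
    (hbd : ∀ z ∈ bdR R, 75 < cst 6 h z ∨ (h z = 3 ∧ IsC b z)) :
    ∀ z ∈ bdR R, 75 < cst 6 h z := by
  classical
  have hgr := H.gradedBelow
  intro z0 hz0
  by_contra hcon
  set Cs := (bdR R).filter (fun z => h z = 3 ∧ IsC b z) with hCs
  have hCm : ∀ z, z ∈ Cs ↔ z ∈ bdR R ∧ h z = 3 ∧ IsC b z := by
    intro z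
    rw [hCs, mem_filter]
  have hz0C : z0 ∈ Cs := (hCm z0).mpr ⟨hz0, (hbd z0 hz0).resolve_left hcon⟩
  let fm : P → Finset P := fun z => Cs.filter (fun y => ∀ w, z < w ↔ y < w)
  have hfm : ∀ z y, y ∈ fm z ↔ y ∈ Cs ∧ ∀ w, z < w ↔ y < w := by
    intro z y
    simp only [fm, mem_filter]
  have hself : ∀ z ∈ Cs, z ∈ fm z := fun z hz => (hfm z z).mpr ⟨hz, fun _ => Iff.rfl⟩
  have hfeq : ∀ z y, y ∈ fm z → fm y = fm z := by
    intro z y hy
    have h1 := ((hfm z y).mp hy).2
    ext w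
    rw [hfm, hfm]
    exact and_congr_right fun _ => ⟨fun h2 v => (h1 v).trans (h2 v),
      fun h2 v => (h1 v).symm.trans (h2 v)⟩
  set Fam := Cs.image fm with hFam
  have hcst : ∀ z ∈ Cs, cst 6 h z = 71 := by
    intro z hz
    obtain ⟨-, h1, t, Nc, co, F, S, C, -⟩ := (hCm z).mp hz
    rw [cst_ct h1]
    exact cst_eq C hgr
  have hunion : ∀ z ∈ Cs, ∀ z' ∈ bdR R, z' ∉ fm z →
      75 < ∑ x, max (ez 6 h z x) (ez 6 h z' x) := by
    intro z hz z' hz' hne
    by_cases hC' : z' ∈ Cs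
    · obtain ⟨-, h1, t, Nc, co, F, S, C, -⟩ := (hCm z).mp hz
      obtain ⟨-, h1', t', Nc', co', F', S', C', -⟩ := (hCm z').mp hC'
      have htt : t ≠ t' := by
        rintro rfl
        obtain ⟨e1, e2⟩ := C.same H (by norm_num) C'
        refine hne ((hfm z z').mpr ⟨hC', fun w => ?_⟩)
        rw [C.lt_iff, C'.lt_iff, e1, e2]
      have ho := C.z_only hgr HN hlow
      have ho' := C'.z_only hgr HN hlow
      have h2 : ∀ x, max (ez 6 h z x) (ez 6 h z' x) = ez 6 h z x + ez 6 h z' x := by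
        intro x
        by_cases hx : z ≤ x
        · have hx' : ¬ z' ≤ x := by
            intro hx'
            have e1 := mem_onlyB.mp (onlyB_up ho hx) (topOf x) (topOf x).2 (le_topOf x)
            have e2 := mem_onlyB.mp (onlyB_up ho' hx') (topOf x) (topOf x).2 (le_topOf x)
            exact htt (Subtype.ext (e1.symm.trans e2))
          have : ez 6 h z' x = 0 := by unfold ez; rw [if_neg hx']
          rw [this]
          simp
        · have : ez 6 h z x = 0 := by unfold ez; rw [if_neg hx]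
          rw [this]
          simp
      rw [Finset.sum_congr rfl fun x _ => h2 x, Finset.sum_add_distrib]
      have e1 : ∑ x, ez 6 h z x = 71 := hcst z hz
      have e2 : ∑ x, ez 6 h z' x = 71 := hcst z' hC'
      rw [e1, e2]
      omega
    · have h3 : 75 < cst 6 h z' := by
        rcases hbd z' hz' with h4 | h4
        · exact h4
        · exact absurd ((hCm z').mpr ⟨hz', h4⟩) hC'
      refine h3.trans_le ?_
      unfold cst
      exact Finset.sum_le_sum fun x _ => le_max_right _ _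
  have key := FT.plusF (n := 75) hn0 Fam ?_ ?_ ?_ ?_
  · have hempty : (bdR R).filter (fun z => (∀ A ∈ Fam, z ∉ A) ∧ cst 6 h z = 75) = ∅ := by
      rw [Finset.filter_eq_empty_iff]
      rintro z hz ⟨h1, h2⟩
      rcases hbd z hz with h3 | h3
      · omega
      · have hzC := (hCm z).mpr ⟨hz, h3⟩
        exact h1 (fm z) (mem_image_of_mem _ hzC) (hself z hzC)
    rw [hempty, Finset.sum_empty, add_zero] at key
    have hZ := dvd_Z H.gauss 6 75
    have h1 : (1 + X : ℤ[X]) ^ (lv P 6).card ∣ ∑ A ∈ Fam, ZF 6 h A 75 := by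
      have := dvd_sub hZ key
      rwa [sub_sub_cancel] at this
    have h2 : (1 + X : ℤ[X]) ^ (lv P 6).card ∣ ∑ A ∈ Fam, (ZF 6 h A 75 -
        ∑ _y ∈ A, X ^ (below P 6 + 10) * (1 + X) ^ ((lv P 6).card - 1)) := by
      refine Finset.dvd_sum fun A hA => ?_
      obtain ⟨z, hz, rfl⟩ := mem_image.mp hA
      obtain ⟨-, h3, t, Nc, co, F, S, C, hb⟩ := (hCm z).mp hz
      have h4 := fam_pole C H HN HZ hlow hb hn0 (h := h) (hself z hz)
        (fun y hy => ((hfm z y).mp hy).2) (fun y hy =>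
          ((hCm y).mp ((hfm z y).mp hy).1).2.1)
      rw [hsum] at h4
      exact h4.2
    rw [Finset.sum_sub_distrib] at h2
    have h3 := dvd_sub h1 h2
    rw [sub_sub_cancel, Finset.sum_sigma'] at h3
    have hB : 1 ≤ (lv P 6).card := by
      obtain ⟨-, -, t, Nc, co, F, S, C, hb⟩ := (hCm z0).mp hz0C
      rw [← hsum]
      have := Finset.single_le_sum (f := b) (fun _ _ => Nat.zero_le _) (mem_univ t)
      omega
    have h4 := sum_empty hB _ (fun _ => below P 6 + 10)
      (σ := (-1) ^ (below P 6 + 10)) (pow_ne_zero _ (by norm_num)) (fun _ _ => rfl) h3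
    have h5 : (⟨fm z0, z0⟩ : (_ : Finset P) × P) ∈ Fam.sigma (fun A => A) := by
      rw [mem_sigma]
      exact ⟨mem_image_of_mem _ hz0C, hself z0 hz0C⟩
    rw [h4] at h5
    exact absurd h5 (Finset.notMem_empty _)
  · intro A hA z hz
    obtain ⟨y, hy, rfl⟩ := mem_image.mp hA
    exact ((hCm z).mp ((hfm y z).mp hz).1).1
  · intro z hz h1
    rcases hbd z hz with h3 | h3
    · exact h3.le
    · have hzC := (hCm z).mpr ⟨hz, h3⟩
      exact absurd (hself z hzC) (h1 (fm z) (mem_image_of_mem _ hzC))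
  · intro A hA z hz z' hz' hne
    obtain ⟨y, hy, rfl⟩ := mem_image.mp hA
    refine hunion z ((hfm y z).mp hz).1 z' hz' ?_
    rw [hfeq y z hz]
    exact hne
  · intro A hA A' hA' hne z hz hz'
    obtain ⟨y, hy, rfl⟩ := mem_image.mp hA
    obtain ⟨y', hy', rfl⟩ := mem_image.mp hA'
    exact hne ((hfeq y z hz).symm.trans (hfeq y' z hz'))

end Pool.Agent.GaussPoset.Cy
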