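import Pool.Agent.W_448cc6_h94.CyC
import Pool.Agent.W_448f6_h94.FxQ
import Pool.Agent.W_448cc7_h94.CsE

/-!
Case B, `m = 7`, window 6: no element (C), no hypothesis on the components
(MP_448cb3_co, input HCC at `m = 7`).
-/

namespace Pool.Agent.GaussPoset.Cy

set_option linter.unusedSectionVars false

open Polynomial Finset Fi F6

universe u

variable {P : Type u} [Fintype P] [PartialOrder P] [DecidableEq P] {r : ℕ}
  {N : Tops P → Finset P} {b : Tops P → ℕ} {θ : Tops P → P → ℕ}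

/-- the orders of the components -/
lemma hz_WE (W : WE r 6 7 77 N b θ) : ∀ t, ∀ n < 76, (1 + X : ℤ[X]) ^ b t ∣
    Z {x : P // x ∈ N t} 6 n := by
  classical
  intro t n hn
  obtain ⟨B, hB⟩ := W.compL
  have HN := W.natSys
  have h1 := (hB t).clean (unnat N) ⟨HN.lower, Finset.Subset.refl _, fun x hx => by
    have := W.lt_lev hx
    omega, fun x hx h => h.1 hx⟩ inferInstance n hn
  have e : {x : {x : P // x ∉ unnat N} // topOf (x : P) = t} ≃o {x : P // x ∈ N t} :=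
    { toFun := fun x => ⟨x.1.1, HN.mem_iff.mpr ⟨x.1.2, x.2⟩⟩
      invFun := fun x => ⟨⟨x.1, (HN.mem_iff.mp x.2).1⟩, (HN.mem_iff.mp x.2).2⟩
      left_inv := fun x => rfl
      right_inv := fun x => rfl
      map_rel_iff' := Iff.rfl }
  rw [Z_iso e] at h1
  exact h1

/-- the elements (C) in the context -/
lemma cel_WE (W : WE r 6 7 77 N b θ) {z x x' : P} (hx : Fd 7 x) (h1 : (Win.uc x').card = 1)
    (ht : topOf x' = topOf x) (hne : x ≠ x') (hzx : z ⋖ x) (hzx' : z ⋖ x')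
    (hz : z ∈ r2 (2 * 7) N) (hl : lev z = 2 * 7 + 1) :
    h2 (2 * 7) N θ z = 3 ∧ IsC b z := by
  have H := W.gt.H
  have hlx' : lev x' = 2 * 7 := by
    have := (H.covBy_iff.mp hzx').2
    omega
  obtain ⟨-, Nc, co, h, hx', hcx'⟩ := W.stair_single hx hlx' ht hne h1
  have hthx' : 2 ≤ θ (topOf x') x' := by
    rw [ht, h.th]
    unfold thS
    split_ifs
    · rw [hlx']; norm_num
    · rw [hcx']; norm_num
  have e0 : θ (topOf x) x = 2 := by rw [W.fold_th hx]
  refine ⟨?_, topOf x, Nc, co, x, x', ?_, ?_⟩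
  · rw [W.h2_eqI hz hl hzx (fun y hy => ?_), e0]
    rcases uc_pair H hzx hzx' hne hy with e | e
    · rw [e]
    · rw [e, e0]; exact hthx'
  · exact ⟨h.stair.chart, h.stair.strip, h.mem, hx', h.cell, hcx', hzx, hzx',
      fun y hy => uc_pair H hzx hzx' hne hy⟩
  · rw [h.b]

/-- **Case B**: there is no element (C). -/
theorem no_cc (W : WE r 6 7 77 N b θ) (hnj : ∀ z : P, lev z = 2 * 7 + 1 → ¬ Hul.Jn z)
    {z x x' : P} (hx : Fd 7 x) (h1 : (Win.uc x').card = 1)
    (ht : topOf x' = topOf x) (hne : x ≠ x') (hzx : z ⋖ x) (hzx' : z ⋖ x') : False := by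
  classical
  have H := W.gt.H
  have hjn : ∀ z x x' : P, lev z = 2 * 7 + 1 → z ⋖ x → z ⋖ x' → topOf x ≠ topOf x' → False := by
    intro z x x' hl hx hx' hne
    refine hnj z hl ⟨topOf x, topOf x', (topOf x).2, (topOf x').2, ?_, ?_, ?_⟩
    · intro h
      exact hne (Subtype.ext h)
    · exact hx.1.le.trans (le_topOf x)
    · exact hx'.1.le.trans (le_topOf x')
  -- the table
  have hrow : ∀ z ∈ bdR (r2 (2 * 7) N), 77 ≤ cst 6 (h2 (2 * 7) N θ) z ∨
      (cst 6 (h2 (2 * 7) N θ) z = 51 ∧ nab 6 z = nab (6 + h2 (2 * 7) N θ z) z + 1 ∧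
        (-1 : ℤ) ^ (nst 6 (h2 (2 * 7) N θ) z) = 1) ∨
      (h2 (2 * 7) N θ z = 3 ∧ IsC b z ∧ cst 6 (h2 (2 * 7) N θ) z = 71) := by
    intro z hz
    rcases W.bd hz with hl | hl
    · rcases W.rows (by decide) (by decide) (by decide) (by decide) (by decide +kernel)
        (by decide +kernel) (bd_mem hz) hl with ⟨x, hx, hp, hn⟩ |
        ⟨x, x', hx, hx', ht, hzx, hzx', hn⟩ | ⟨x, x', hx, h1, ht, hzx, hzx', p, hp, hpr, hn⟩ |
        ⟨x, x', hx, h1, ht, hne, hzx, hzx'⟩ | h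
      · right; left
        refine ⟨?_, ?_, ?_⟩
        · rw [hn.cst]
          decide +kernel
        · rw [hn.n0, hn.n1]
          decide
        · rw [hn.nst]
          decide +kernel
      · exact (hjn z x x' hl hzx hzx' ht).elim
      · exact (hjn z x x' hl hzx hzx' ht).elim
      · obtain ⟨g1, g2⟩ := cel_WE W hx h1 ht hne hzx hzx' (bd_mem hz) hl
        refine Or.inr (Or.inr ⟨g1, g2, ?_⟩)
        obtain ⟨t, Nc, co, F, S, C, -⟩ := g2
        rw [cst_ct g1]
        exact cst_eq C H.gradedBelow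
      · exact Or.inl h
    · exact Or.inl hl
  have h51 : ∀ z ∈ bdR (r2 (2 * 7) N), 51 ≤ cst 6 (h2 (2 * 7) N θ) z := by
    intro z hz
    rcases hrow z hz with h | ⟨h, -, -⟩ | ⟨-, -, h⟩ <;> omega
  have hno : ∀ z ∈ bdR (r2 (2 * 7) N), ¬ cst 6 (h2 (2 * 7) N θ) z = 51 := by
    intro z0 hz0 hc0
    refine W.kill (n := 51) (δ := 1) (by norm_num) le_rfl (σ := 1) one_ne_zero h51 ?_ ?_ z0 hz0
      hc0 ?_
    · intro z hz hc
      rcases hrow z hz with h | ⟨-, h, -⟩ | ⟨-, -, h⟩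
      · omega
      · exact h.le
      · omega
    · intro z hz hc _
      rcases hrow z hz with h | ⟨-, -, h⟩ | ⟨-, -, h⟩
      · omega
      · exact h
      · omega
    · rcases hrow z0 hz0 with h | ⟨-, h, -⟩ | ⟨-, -, h⟩
      · omega
      · exact h
      · omega
  have hl : lev z = 2 * 7 + 1 := by
    have e1 := (H.covBy_iff.mp hzx).2
    have e2 := hx.1
    omega
  have hzR := W.cc_r2 hx h1 hne hzx hzx'
  have hzb := W.mem_bd hzR hl
  obtain ⟨g1, g2⟩ := cel_WE W hx h1 ht hne hzx hzx' hzR hl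
  have hdead := cc_dead H W.natSys (hz_WE W) (fun x hx => W.lt_lev hx) W.sum_b W.farT
    (by norm_num) (fun z hz => by
      rcases hrow z hz with h | ⟨h, -, -⟩ | ⟨h, h', -⟩
      · left; omega
      · exact absurd h (hno z hz)
      · exact Or.inr ⟨h, h'⟩) z hzb
  obtain ⟨t, Nc, co, F, S, C, -⟩ := g2
  rw [cst_ct g1] at hdead
  have e3 : ct 6 3 z = 71 := cst_eq C H.gradedBelow
  omega

end Pool.Agent.GaussPoset.Cy
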