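import Pool.Agent.W_448cc6_h94.CyD

/-!
Case B, `m = 7`: no element (C), without hypotheses on the components
(MP_448cb3_co, input HCC at `m = 7`).
-/

namespace Pool.Agent.GaussPoset.Cy

set_option linter.unusedSectionVars false

open Polynomial Finset Fi F6 Cp

universe u

variable {P : Type u} [Fintype P] [PartialOrder P] [DecidableEq P] {r : ℕ}

/-- one upper cover at the two ends of the last row of a chart -/
lemma uc_le_one (H : Gr P r) {t0 : Tops P} {Nc : Finset P} {co : P → ℕ × ℕ} {x : P}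
    (C : Chart (t0 : P) (fun c => c.1 ≤ c.2) Nc co) (hx : x ∈ Nc)
    (hc : co x = (7, 7) ∨ co x = (0, 14)) : (Win.uc x).card ≤ 1 := by
  rw [Finset.card_le_one]
  intro a ha b hb
  rw [Win.mem_uc] at ha hb
  have haN := C.up x hx a ha.le
  have hbN := C.up x hx b hb.le
  have h1 := (chart_cov C H hx haN).mp ha
  have h2 := (chart_cov C H hx hbN).mp hb
  have h3 : (co a).1 ≤ (co a).2 := C.mem a haN
  have h4 : (co b).1 ≤ (co b).2 := C.mem b hbN
  apply C.inj a haN b hbN
  unfold Prd at h1 h2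
  rcases hc with h | h
  · rw [h] at h1 h2
    simp only at h1 h2
    exact Prod.ext (by omega) (by omega)
  · rw [h] at h1 h2
    simp only at h1 h2
    exact Prod.ext (by omega) (by omega)

/-- **(C), `m = 7`, case B.**  If no element of level 15 is below two tops then no element of
level 15 covers the fold end and the straight end of a stair; the components are arbitrary. -/
theorem no_cc_seven (h : Win.GoodTo P r (2 * 7)) {lo hi : Tops P → ℕ → ℕ}
    {e : Tops P → ℕ → ℕ → P} (C : ∀ t : Tops P, Comp (2 * 7) (t : P) (lo t) (hi t) (e t))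
    (hS : ∀ t, Wd.Shape (2 * 7) (lo t) (hi t))
    (hnj : ∀ z : P, lev z = 2 * 7 + 1 → ¬ Hul.Jn z) {t : Tops P} {z : P}
    (S : StairShape (2 * 7) (lo t) (hi t)) (h0 : lo t (2 * 7) = 0)
    (hz1 : z ⋖ e t (2 * 7) 7) (hz2 : z ⋖ e t (2 * 7) 0) : False := by
  classical
  have H := h.H
  have e1 := S.hi (2 * 7) le_rfl
  have e2 := (C t).lev_e (2 * 7) 7 le_rfl (by omega) (by omega)
  have e3 := (C t).lev_e (2 * 7) 0 le_rfl (by omega) (by omega)
  have t2 := (C t).le_t (2 * 7) 7 le_rfl (by omega) (by omega)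
  have t3 := (C t).le_t (2 * 7) 0 le_rfl (by omega) (by omega)
  have hr : 2 * 7 + 1 ≤ r := by
    have g1 := (H.covBy_iff.mp hz1).2
    have g2 := H.lev_le z
    omega
  obtain ⟨N, θ, W⟩ := exists_WE h hr C hS
  obtain ⟨Nc, co, R, h4⟩ := exists_stair (C t) H h.good H.gradedBelow S (i := 6) (by norm_num)
  have hF : e t (2 * 7) 7 ∈ lowPart (2 * 7) (t : P) := mem_lowPart.mpr ⟨t2, e2.le⟩
  have hS' : e t (2 * 7) 0 ∈ lowPart (2 * 7) (t : P) := mem_lowPart.mpr ⟨t3, e3.le⟩
  have c2 : co (e t (2 * 7) 7) = (7, 7) := by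
    rw [h4 _ hF]
    unfold ccoord
    rw [scoord_e (C t) (k := 2 * 7) (s := 7) le_rfl (by omega) (by omega), e2]
  have c3 : co (e t (2 * 7) 0) = (0, 14) := by
    rw [h4 _ hS']
    unfold ccoord
    rw [scoord_e (C t) (k := 2 * 7) (s := 0) le_rfl (by omega) (by omega), e3]
  have hFN := R.strip hF
  have hSN := R.strip hS'
  have u2 : (Win.uc (e t (2 * 7) 7)).card = 1 := by
    refine le_antisymm (uc_le_one H R.chart hFN (Or.inl c2)) ?_
    obtain ⟨w, hw⟩ := exists_cov' (y := e t (2 * 7) 7) (by omega)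
    exact Finset.card_pos.mpr ⟨w, Win.mem_uc.mpr hw⟩
  have u3 : (Win.uc (e t (2 * 7) 0)).card = 1 := by
    refine le_antisymm (uc_le_one H R.chart hSN (Or.inr c3)) ?_
    obtain ⟨w, hw⟩ := exists_cov' (y := e t (2 * 7) 0) (by omega)
    exact Finset.card_pos.mpr ⟨w, Win.mem_uc.mpr hw⟩
  have hFd : Fd 7 (e t (2 * 7) 7) := by
    refine ⟨e2, u2, ?_⟩
    rw [nab_chart R.chart hFN, c2]
    have := card_cellsAt_shift (l := 2) (p := (7, 7)) le_rfl (by norm_num)
    simp only at this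
    omega
  have htop : ∀ x : P, x ≤ (t : P) → lev x = 2 * 7 → topOf x = t := by
    intro x hx hl
    have h1 : x ∈ N (topOf x) := W.natSys.mem_iff.mpr ⟨W.low hl.le, rfl⟩
    exact Subtype.ext (W.natSys.top_eq h1 t.2 hx).symm
  refine no_cc W hnj hFd u3 ?_ ?_ hz1 hz2
  · rw [htop _ t3 e3, htop _ t2 e2]
  · intro h
    rw [h, c3, Prod.mk.injEq] at c2
    omega

end Pool.Agent.GaussPoset.Cy
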